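import Pool.Agent.Lib.MP_688fd0_co.TE.Iface1

/-!
# Theorem E: module HAR (Harnack inequality)
-/

namespace Pool.Agent.Lib.MP_688fd0_co.TE.H54

universe u

open Matrix

set_option linter.unusedSectionVars false

variable {G : Type u} [Group G] [Fintype G] [DecidableEq G]

/-- Row of a matrix as a Euclidean vector. -/
noncomputable def rw' (M : Matrix G G ℝ) (x : G) : EuclideanSpace ℝ G :=
  WithLp.toLp 2 (fun v => M x v)

theorem inner_rw (M N : Matrix G G ℝ) (x y : G) :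
    inner ℝ (rw' M x) (rw' N y) = (M * N.transpose) x y := by
  unfold rw'
  rw [Matrix.mul_apply, PiLp.inner_apply]
  apply Finset.sum_congr rfl
  intro v _
  simp [Matrix.transpose_apply, mul_comm]

theorem inv_mul' {M N : Matrix G G ℝ} (hM : Inv M) (hN : Inv N) : Inv (M * N) := by
  intro g x y
  rw [Matrix.mul_apply, Matrix.mul_apply,
    ← Equiv.sum_comp (Equiv.mulLeft g) (fun v => M (g * x) v * N v (g * y))]
  apply Finset.sum_congr rfl
  intro v _
  simp only [Equiv.coe_mulLeft]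
  rw [hM, hN]

theorem inv_transpose {M : Matrix G G ℝ} (hM : Inv M) : Inv M.transpose :=
  fun g x y => hM g y x

theorem inv_one : Inv (1 : Matrix G G ℝ) := by
  intro g x y
  simp [Matrix.one_apply]

theorem inv_pow' {M : Matrix G G ℝ} (hM : Inv M) (n : ℕ) : Inv (M ^ n) := by
  induction n with
  | zero => rw [pow_zero]; exact inv_one
  | succ n ih => rw [pow_succ]; exact inv_mul' ih hM

theorem norm_sub_rw {M N : Matrix G G ℝ} (x y : G) :
    ‖rw' M x - rw' N y‖ ^ 2 = (M * M.transpose) x x + (N * N.transpose) y y -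
      2 * (M * N.transpose) x y := by
  rw [norm_sub_sq_real, inner_rw, ← real_inner_self_eq_norm_sq, ← real_inner_self_eq_norm_sq,
    inner_rw, inner_rw]
  ring

/-- Rows of a product. -/
theorem rw_mul (M N : Matrix G G ℝ) (x : G) : rw' (M * N) x = ∑ z, M x z • rw' N z := by
  ext v
  simp [rw', Matrix.mul_apply]

/-- Basic facts on the kernels. -/
structure KF (B C : Finset G) (τ : Bool) : Prop where
  bd : DS (UM B)
  bi : Inv (UM B)
  bt : (UM B).transpose = UM B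
  wd : DS (WM B C τ)
  wi : Inv (WM B C τ)
  wt : (WM B C τ).transpose = WM B C τ
  sd : DS (SM B C τ)
  si : Inv (SM B C τ)
  st : (SM B C τ).transpose = SM B C τ

theorem kf (hM : MAT_S.{u}) {B C : Finset G} (hB : Sy B) (hC : Sy C) (τ : Bool) : KF B C τ := by
  obtain ⟨m1, m2, m3, -⟩ := hM G
  obtain ⟨b1, b2, b3⟩ := m1 B hB
  obtain ⟨c1, c2, c3⟩ := m1 C hC
  have hw : DS (WM B C τ) ∧ Inv (WM B C τ) ∧ (WM B C τ).transpose = WM B C τ := by
    unfold WM
    cases τ
    · simpa using ⟨b1, b2, b3⟩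
    · simp only [if_true]
      refine ⟨⟨?_, ?_, ?_⟩, ?_, ?_⟩
      · intro x y
        have h1 := b1.nn x y
        have h2 := c1.nn x y
        simp only [Matrix.smul_apply, Matrix.add_apply, smul_eq_mul]
        positivity
      · intro x
        simp only [Matrix.smul_apply, Matrix.add_apply, smul_eq_mul]
        rw [← Finset.mul_sum, Finset.sum_add_distrib, b1.row, c1.row]; norm_num
      · intro y
        simp only [Matrix.smul_apply, Matrix.add_apply, smul_eq_mul]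
        rw [← Finset.mul_sum, Finset.sum_add_distrib, b1.col, c1.col]; norm_num
      · intro g x y
        simp only [Matrix.smul_apply, Matrix.add_apply]
        rw [b2, c2]
      · rw [Matrix.transpose_smul, Matrix.transpose_add, b3, c3]
  obtain ⟨w1, w2, w3⟩ := hw
  refine ⟨b1, b2, b3, w1, w2, w3, ?_, ?_, ?_⟩
  · exact m2 _ _ (m2 _ _ b1 w1) b1
  · exact m3 _ _ (m3 _ _ b2 w2) b2
  · unfold SM
    rw [Matrix.transpose_mul, Matrix.transpose_mul, b3, w3, Matrix.mul_assoc]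

theorem inv11 {M : Matrix G G ℝ} (h : Inv M) (x y : G) : M x y = M (y⁻¹ * x) 1 := by
  rw [← h y (y⁻¹ * x) 1]
  simp

theorem inv_diag {M : Matrix G G ℝ} (h : Inv M) (x : G) : M x x = M 1 1 := by
  rw [inv11 h]; simp

theorem exp_small {e : ℝ} (h0 : 0 ≤ e) (h1 : e ≤ 1 / 10 ^ 8) : Real.exp e ≤ 1 + 2 * e := by
  have h2 : |e| ≤ 1 := by rw [abs_of_nonneg h0]; norm_num at h1 ⊢; linarith
  have h3 := Real.abs_exp_sub_one_sub_id_le h2
  have h4 := (abs_le.1 h3).2
  have h5 : e ^ 2 ≤ e := by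
    have : e * e ≤ e * 1 := mul_le_mul_of_nonneg_left (by norm_num at h1 ⊢; linarith) h0
    nlinarith
  linarith

/-- The four families of rows and the three basic estimates. -/
theorem basic (hM : MAT_S.{u}) (hL : LOGC_S.{u}) {B C : Finset G} (hB : Sy B) (hC : Sy C)
    (τ : Bool) {k : ℕ} {e : ℝ} (hk : 1 ≤ k) (he0 : 0 ≤ e) (he : e ≤ 1 / 10 ^ 8)
    (hlog : Real.log (Fintype.card G) / k ≤ e)
    (hr1 : ∀ s ∈ B, 1 - e ≤ r1 B C τ k s) (hr2 : ∀ s ∈ Lt B C τ, 1 - e ≤ r2 B C τ k s) :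
    0 < qf B C τ k ∧
    (∀ y, ‖rw' (SM B C τ ^ k) y‖ ^ 2 = qf B C τ k) ∧
    (∀ y, ‖rw' (UM B * SM B C τ ^ k) y‖ ^ 2 ≤ qf B C τ k) ∧
    (∀ y, ∀ s ∈ B, ‖rw' (WM B C τ * (UM B * SM B C τ ^ (k - 1))) (y * s) -
      rw' (SM B C τ ^ k) y‖ ^ 2 ≤ 4 * e * qf B C τ k) ∧
    (∀ y, ∀ s ∈ Lt B C τ, ‖rw' (UM B * SM B C τ ^ (k - 1)) (y * s) -
      rw' (UM B * SM B C τ ^ k) y‖ ^ 2 ≤ 4 * e * qf B C τ k) := by
  have K := kf hM hB hC τ
  obtain ⟨-, -, -, -, -, -, m7, -⟩ := hM G
  obtain ⟨l1, l2, l3, l4, l5⟩ := hL G _ K.sd K.si K.st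
  set S := SM B C τ with hS
  have hq : qf B C τ k = (S ^ (2 * k)) 1 1 := rfl
  set q := qf B C τ k with hqd
  have hq0 : 0 < q := by
    have h1 := l1 k
    have h2 : 0 < (1 : ℝ) / (Fintype.card G : ℝ) := by
      have : 0 < (Fintype.card G : ℝ) := by exact_mod_cast Fintype.card_pos
      positivity
    rw [hq]; linarith
  have hq1 : (S ^ (2 * (k - 1))) 1 1 ≤ (1 + 2 * e) * q := by
    have h1 := l3 k hk
    have h2 : Real.exp (Real.log (Fintype.card G) / k) ≤ 1 + 2 * e :=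
      (Real.exp_le_exp.2 hlog).trans (exp_small he0 he)
    rw [hq]
    refine h1.trans (mul_le_mul_of_nonneg_right h2 ?_)
    rw [← hq]; exact le_of_lt hq0
  have hSt : ∀ j : ℕ, (S ^ j).transpose = S ^ j := by
    intro j
    rw [Matrix.transpose_pow, K.st]
  have hpow : S ^ k * S ^ k = S ^ (2 * k) := by rw [← pow_add]; congr 1; ring
  have hpow1 : S ^ (k - 1) * S ^ (k - 1) = S ^ (2 * (k - 1)) := by
    rw [← pow_add]; congr 1; ring
  have hpow2 : S ^ (k - 1) * S ^ k = S ^ (2 * k - 1) := by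
    rw [← pow_add]; congr 1; omega
  have n1 : ∀ y, (S ^ k * (S ^ k).transpose) y y = q := by
    intro y
    rw [hSt, hpow, inv_diag (inv_pow' K.si _), hq]
  have hsq : ∀ (M : Matrix G G ℝ) (y : G), ‖rw' M y‖ ^ 2 = (M * M.transpose) y y := by
    intro M y
    rw [← real_inner_self_eq_norm_sq, inner_rw]
  have n2 : ∀ y, (UM B * S ^ k * (UM B * S ^ k).transpose) y y ≤ q := by
    intro y
    rw [Matrix.transpose_mul, hSt, K.bt]
    rw [show UM B * S ^ k * (S ^ k * UM B) = UM B * (S ^ (2 * k)) * UM B by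
      rw [← hpow]; simp only [Matrix.mul_assoc]]
    refine ((m7 (UM B) (UM B * S ^ (2 * k)) q K.bd ?_) y y).2
    intro x z
    exact (m7 (UM B) (S ^ (2 * k)) q K.bd (fun x y => by rw [hq]; exact l4 k x y) x z).1
  have n3' : ∀ x y, (UM B * S ^ (2 * (k - 1)) * UM B) x y ≤ (S ^ (2 * (k - 1))) 1 1 := by
    intro x y
    refine ((m7 (UM B) (UM B * S ^ (2 * (k - 1))) _ K.bd ?_) x y).2
    intro x z
    exact (m7 (UM B) (S ^ (2 * (k - 1))) _ K.bd (fun x y => l4 (k - 1) x y) x z).1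
  have n3 : ∀ y, (UM B * S ^ (k - 1) * (UM B * S ^ (k - 1)).transpose) y y ≤
      (1 + 2 * e) * q := by
    intro y
    rw [Matrix.transpose_mul, hSt, K.bt]
    rw [show UM B * S ^ (k - 1) * (S ^ (k - 1) * UM B) = UM B * (S ^ (2 * (k - 1))) * UM B by
      rw [← hpow1]; simp only [Matrix.mul_assoc]]
    exact (n3' y y).trans hq1
  have n4 : ∀ y, (WM B C τ * (UM B * S ^ (k - 1)) *
      (WM B C τ * (UM B * S ^ (k - 1))).transpose) y y ≤ (1 + 2 * e) * q := by
    intro y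
    rw [Matrix.transpose_mul, Matrix.transpose_mul, hSt, K.bt, K.wt]
    rw [show WM B C τ * (UM B * S ^ (k - 1)) * (S ^ (k - 1) * UM B * WM B C τ) =
      WM B C τ * (UM B * (S ^ (2 * (k - 1))) * UM B) * WM B C τ by
      rw [← hpow1]; simp only [Matrix.mul_assoc]]
    refine ((m7 (WM B C τ) (WM B C τ * (UM B * S ^ (2 * (k - 1)) * UM B))
      ((1 + 2 * e) * q) K.wd ?_) y y).2
    intro x z
    exact (m7 (WM B C τ) (UM B * S ^ (2 * (k - 1)) * UM B) _ K.wd
      (fun x y => (n3' x y).trans hq1) x z).1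
  have hI1 : Inv (WM B C τ * (UM B * S ^ (k - 1)) * (S ^ k).transpose) :=
    inv_mul' (inv_mul' K.wi (inv_mul' K.bi (inv_pow' K.si _))) (inv_transpose (inv_pow' K.si _))
  have hI2 : Inv (UM B * S ^ (k - 1) * (UM B * S ^ k).transpose) :=
    inv_mul' (inv_mul' K.bi (inv_pow' K.si _))
      (inv_transpose (inv_mul' K.bi (inv_pow' K.si _)))
  refine ⟨hq0, fun y => by rw [hsq, n1], fun y => by rw [hsq]; exact n2 y, ?_, ?_⟩
  · intro y s hs
    rw [norm_sub_rw, n1]
    have h1 := n4 (y * s)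
    have h2 : (1 - e) * q ≤ (WM B C τ * (UM B * S ^ (k - 1)) * (S ^ k).transpose) (y * s) y := by
      have h3 := hI1 y s 1
      rw [mul_one] at h3
      rw [h3, hSt]
      have h4 : WM B C τ * (UM B * S ^ (k - 1)) * S ^ k = WM B C τ * UM B * S ^ (2 * k - 1) := by
        rw [← hpow2]; simp only [Matrix.mul_assoc]
      rw [h4]
      have h5 := hr1 s hs
      unfold r1 at h5
      rwa [le_div_iff₀ hq0] at h5
    linarith
  · intro y s hs
    rw [norm_sub_rw]
    have h1 := n3 (y * s)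
    have h1' := n2 y
    have h2 : (1 - e) * q ≤ (UM B * S ^ (k - 1) * (UM B * S ^ k).transpose) (y * s) y := by
      have h3 := hI2 y s 1
      rw [mul_one] at h3
      rw [h3, Matrix.transpose_mul, hSt, K.bt]
      have h4 : UM B * S ^ (k - 1) * (S ^ k * UM B) = UM B * S ^ (2 * k - 1) * UM B := by
        rw [← hpow2]; simp only [Matrix.mul_assoc]
      rw [h4]
      have h5 := hr2 s hs
      unfold r2 at h5
      rwa [le_div_iff₀ hq0] at h5
    linarith

theorem UM_supp {S : Finset G} {x y : G} (h : UM S x y ≠ 0) : x⁻¹ * y ∈ S := by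
  by_contra hc
  apply h
  unfold UM
  rw [ind_not hc, zero_div]

theorem WM_supp {B C : Finset G} {τ : Bool} {x y : G} (h : WM B C τ x y ≠ 0) :
    x⁻¹ * y ∈ Lt B C τ := by
  unfold WM Lt at *
  cases τ
  · simp only [Bool.false_eq_true, if_false] at *
    exact UM_supp h
  · simp only [if_true] at *
    rw [Finset.mem_union]
    by_contra hc
    push Not at hc
    apply h
    rw [Matrix.smul_apply, Matrix.add_apply]
    have h1 : UM B x y = 0 := by
      by_contra h1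
      exact hc.1 (UM_supp h1)
    have h2 : UM C x y = 0 := by
      by_contra h2
      exact hc.2 (UM_supp h2)
    rw [h1, h2]; simp

theorem Lt_inv {B C : Finset G} (hB : Sy B) (hC : Sy C) (τ : Bool) {t : G}
    (ht : t ∈ Lt B C τ) : t⁻¹ ∈ Lt B C τ := by
  unfold Lt at *
  cases τ
  · simp only [Bool.false_eq_true, if_false] at *
    exact hB.inv t ht
  · simp only [if_true, Finset.mem_union] at *
    rcases ht with h | h
    · exact Or.inl (hB.inv t h)
    · exact Or.inr (hC.inv t h)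

theorem B_sub_Lt {B C : Finset G} (τ : Bool) {t : G} (ht : t ∈ B) : t ∈ Lt B C τ := by
  unfold Lt
  cases τ
  · simpa using ht
  · simp only [if_true, Finset.mem_union]
    exact Or.inl ht

/-- One letter of the alphabet. -/
theorem letter (hM : MAT_S.{u}) {B C : Finset G} (hB : Sy B) (hC : Sy C)
    (τ : Bool) (k : ℕ) (h : ℝ)
    (f1 : ∀ y, ∀ s ∈ B, ‖rw' (WM B C τ * (UM B * SM B C τ ^ (k - 1))) (y * s) -
      rw' (SM B C τ ^ k) y‖ ≤ h)
    (f2 : ∀ y, ∀ s ∈ Lt B C τ, ‖rw' (UM B * SM B C τ ^ (k - 1)) (y * s) -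
      rw' (UM B * SM B C τ ^ k) y‖ ≤ h) :
    ∀ y, ∀ t ∈ Lt B C τ, ‖rw' (SM B C τ ^ k) (y * t) - rw' (UM B * SM B C τ ^ k) y‖ ≤ 4 * h := by
  have K := kf hM hB hC τ
  obtain ⟨s₀, hs₀⟩ := hB.ne
  -- averaging over `w`
  have f3 : ∀ y, ‖rw' (WM B C τ * (UM B * SM B C τ ^ (k - 1))) y -
      rw' (UM B * SM B C τ ^ k) y‖ ≤ h := by
    intro y
    have e1 : rw' (WM B C τ * (UM B * SM B C τ ^ (k - 1))) y - rw' (UM B * SM B C τ ^ k) y =
        ∑ z, WM B C τ y z • (rw' (UM B * SM B C τ ^ (k - 1)) z - rw' (UM B * SM B C τ ^ k) y) := by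
      rw [rw_mul]
      simp only [smul_sub]
      rw [Finset.sum_sub_distrib, ← Finset.sum_smul, K.wd.row, one_smul]
    rw [e1]
    refine (norm_sum_le _ _).trans ?_
    have e2 : ∀ z ∈ Finset.univ, ‖WM B C τ y z • (rw' (UM B * SM B C τ ^ (k - 1)) z -
        rw' (UM B * SM B C τ ^ k) y)‖ ≤ WM B C τ y z * h := by
      intro z _
      rw [norm_smul, Real.norm_of_nonneg (K.wd.nn y z)]
      by_cases hz : WM B C τ y z = 0
      · rw [hz, zero_mul, zero_mul]
      · apply mul_le_mul_of_nonneg_left _ (K.wd.nn y z)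
        have := f2 y _ (WM_supp hz)
        rwa [mul_inv_cancel_left] at this
    refine (Finset.sum_le_sum e2).trans ?_
    rw [← Finset.sum_mul, K.wd.row, one_mul]
  -- `χ (y s) ~ ψ y`, `s ∈ B`
  have f4 : ∀ y, ∀ s ∈ B, ‖rw' (UM B * SM B C τ ^ k) (y * s) - rw' (SM B C τ ^ k) y‖ ≤
      2 * h := by
    intro y s hs
    have e1 := norm_sub_le_norm_sub_add_norm_sub (rw' (UM B * SM B C τ ^ k) (y * s))
      (rw' (WM B C τ * (UM B * SM B C τ ^ (k - 1))) (y * s)) (rw' (SM B C τ ^ k) y)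
    have e2 := f3 (y * s)
    rw [norm_sub_rev] at e2
    have e3 := f1 y s hs
    linarith
  have f5 : ∀ y, ‖rw' (UM B * SM B C τ ^ (k - 1)) y - rw' (SM B C τ ^ k) y‖ ≤ 3 * h := by
    intro y
    have e1 := norm_sub_le_norm_sub_add_norm_sub (rw' (UM B * SM B C τ ^ (k - 1)) y)
      (rw' (UM B * SM B C τ ^ k) (y * s₀⁻¹)) (rw' (SM B C τ ^ k) y)
    have e2 := f2 (y * s₀⁻¹) s₀ (B_sub_Lt τ hs₀)
    rw [inv_mul_cancel_right] at e2
    have e3 := f4 y _ (hB.inv s₀ hs₀)
    linarith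
  intro y t ht
  have e1 := norm_sub_le_norm_sub_add_norm_sub (rw' (SM B C τ ^ k) (y * t))
    (rw' (UM B * SM B C τ ^ (k - 1)) (y * t)) (rw' (UM B * SM B C τ ^ k) y)
  have e2 := f5 (y * t)
  rw [norm_sub_rev] at e2
  have e3 := f2 y t ht
  linarith

/-- Words. -/
theorem words {L : Finset G} (hL : ∀ t ∈ L, t⁻¹ ∈ L) (ψ χ : G → EuclideanSpace ℝ G) (h : ℝ)
    (f : ∀ y, ∀ t ∈ L, ‖ψ (y * t) - χ y‖ ≤ h) (l : List G) (hl : ∀ s ∈ l, s ∈ L) :
    ∀ y, (Even l.length → ‖ψ (y * l.prod) - ψ y‖ ≤ l.length * h ∧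
      ‖χ (y * l.prod) - χ y‖ ≤ l.length * h) ∧
    (Odd l.length → ‖ψ (y * l.prod) - χ y‖ ≤ l.length * h ∧
      ‖χ (y * l.prod) - ψ y‖ ≤ l.length * h) := by
  have f' : ∀ y, ∀ t ∈ L, ‖χ (y * t) - ψ y‖ ≤ h := by
    intro y t ht
    have := f (y * t) t⁻¹ (hL t ht)
    rwa [mul_inv_cancel_right, norm_sub_rev] at this
  induction l with
  | nil =>
    intro y
    constructor
    · intro _; simp
    · intro ho; simp at ho
  | cons t l ih =>
    intro y
    have ht : t ∈ L := hl t (by simp)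
    obtain ⟨i1, i2⟩ := ih (fun s hs => hl s (by simp [hs])) (y * t)
    have g1 := f y t ht
    have g2 := f' y t ht
    simp only [List.length_cons, List.prod_cons, ← mul_assoc]
    push_cast
    constructor
    · intro he
      have ho : Odd l.length := by
        rw [Nat.even_add_one, Nat.not_even_iff_odd] at he
        exact he
      obtain ⟨j1, j2⟩ := i2 ho
      constructor
      · have e1 := norm_sub_le_norm_sub_add_norm_sub (ψ (y * t * l.prod)) (χ (y * t)) (ψ y)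
        linarith
      · have e1 := norm_sub_le_norm_sub_add_norm_sub (χ (y * t * l.prod)) (ψ (y * t)) (χ y)
        linarith
    · intro ho
      have he : Even l.length := by
        rw [Nat.odd_add_one, Nat.not_odd_iff_even] at ho
        exact ho
      obtain ⟨j1, j2⟩ := i1 he
      constructor
      · have e1 := norm_sub_le_norm_sub_add_norm_sub (ψ (y * t * l.prod)) (ψ (y * t)) (χ y)
        linarith
      · have e1 := norm_sub_le_norm_sub_add_norm_sub (χ (y * t * l.prod)) (χ (y * t)) (ψ y)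
        linarith

/-- HAR. -/
theorem har (hM : MAT_S.{u}) (hL : LOGC_S.{u}) : HAR_S.{u} := by
  intro G _ _ _ B C hB hC τ k e hk he0 he hlog hr hrC
  have hr2 : ∀ s ∈ Lt B C τ, 1 - e ≤ r2 B C τ k s := by
    intro s hs
    unfold Lt at hs
    cases τ
    · simp only [Bool.false_eq_true, if_false] at hs
      exact (hr s hs).2
    · simp only [if_true, Finset.mem_union] at hs
      rcases hs with h | h
      · exact (hr s h).2
      · exact hrC rfl s h
  obtain ⟨hq0, nψ, nχ, g1, g2⟩ := basic hM hL hB hC τ hk he0 he hlog (fun s hs => (hr s hs).1) hr2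
  have K := kf hM hB hC τ
  set q := qf B C τ k with hq
  set h := 2 * Real.sqrt e * Real.sqrt q with hh
  have hh0 : 0 ≤ h := by positivity
  have hsq : h ^ 2 = 4 * e * q := by
    rw [hh, mul_pow, mul_pow, Real.sq_sqrt he0, Real.sq_sqrt (le_of_lt hq0)]; norm_num
  have f1 : ∀ y, ∀ s ∈ B, ‖rw' (WM B C τ * (UM B * SM B C τ ^ (k - 1))) (y * s) -
      rw' (SM B C τ ^ k) y‖ ≤ h := by
    intro y s hs
    apply le_of_sq_le_sq _ hh0
    rw [hsq]
    exact g1 y s hs
  have f2 : ∀ y, ∀ s ∈ Lt B C τ, ‖rw' (UM B * SM B C τ ^ (k - 1)) (y * s) -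
      rw' (UM B * SM B C τ ^ k) y‖ ≤ h := by
    intro y s hs
    apply le_of_sq_le_sq _ hh0
    rw [hsq]
    exact g2 y s hs
  have f6 := letter hM hB hC τ k h f1 f2
  have fw := fun l hl y => words (fun t ht => Lt_inv hB hC τ ht)
    (fun y => rw' (SM B C τ ^ k) y) (fun y => rw' (UM B * SM B C τ ^ k) y) (4 * h) f6 l hl y
  have hSt : ∀ j : ℕ, (SM B C τ ^ j).transpose = SM B C τ ^ j := by
    intro j
    rw [Matrix.transpose_pow, K.st]
  have hpow : SM B C τ ^ k * SM B C τ ^ k = SM B C τ ^ (2 * k) := by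
    rw [← pow_add]; congr 1; ring
  have hsqn : ∀ (M : Matrix G G ℝ) (y : G), ‖rw' M y‖ ^ 2 = (M * M.transpose) y y := by
    intro M y
    rw [← real_inner_self_eq_norm_sq, inner_rw]
  have hlen : ∀ j : ℕ, j ≤ 100 → (j : ℝ) * (4 * h) ≤ 400 * h := by
    intro j hj
    have : (j : ℝ) ≤ 100 := by exact_mod_cast hj
    nlinarith
  have hbig : (400 * h) ^ 2 ≤ 64 / 10000 * q := by
    have e1 : (400 * h) ^ 2 = 640000 * e * q := by rw [mul_pow, hsq]; ring
    rw [e1]
    apply mul_le_mul_of_nonneg_right _ (le_of_lt hq0)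
    norm_num at he ⊢
    linarith
  constructor
  · rintro x y ⟨j, hj, hj', l, hll, hls, hlp⟩
    have hy : y = x * l.prod := by rw [hlp, mul_inv_cancel_left]
    obtain ⟨w1, -⟩ := fw l hls x
    have w2 := (w1 (by rw [hll]; exact hj)).1
    rw [← hy, hll, norm_sub_rev] at w2
    have w3 : ‖rw' (SM B C τ ^ k) x - rw' (SM B C τ ^ k) y‖ ^ 2 ≤ (400 * h) ^ 2 :=
      pow_le_pow_left₀ (norm_nonneg _) (w2.trans (hlen j hj')) 2
    rw [norm_sub_rw, ← hsqn, ← hsqn, nψ, nψ, hSt, hpow] at w3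
    linarith
  · rintro x y ⟨j, hj, hj', l, hll, hls, hlp⟩
    have hy : y = x * l.prod := by rw [hlp, mul_inv_cancel_left]
    obtain ⟨-, w1⟩ := fw l hls x
    have w2 := (w1 (by rw [hll]; exact hj)).1
    rw [← hy, hll, norm_sub_rev] at w2
    have w3 : ‖rw' (UM B * SM B C τ ^ k) x - rw' (SM B C τ ^ k) y‖ ^ 2 ≤ (400 * h) ^ 2 :=
      pow_le_pow_left₀ (norm_nonneg _) (w2.trans (hlen j hj')) 2
    rw [norm_sub_rw, ← hsqn, ← hsqn, nψ, hSt, Matrix.mul_assoc, hpow] at w3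
    -- lower bound for the norm of `χ`
    obtain ⟨s₀, hs₀⟩ := hB.ne
    have w4 := f6 x s₀ (B_sub_Lt τ hs₀)
    have w5 : ‖rw' (SM B C τ ^ k) (x * s₀)‖ = Real.sqrt q := by
      rw [← nψ (x * s₀), Real.sqrt_sq (norm_nonneg _)]
    have w6 := norm_sub_norm_le (rw' (SM B C τ ^ k) (x * s₀)) (rw' (UM B * SM B C τ ^ k) x)
    rw [w5] at w6
    have w7 : Real.sqrt q - 4 * h ≤ ‖rw' (UM B * SM B C τ ^ k) x‖ := by linarith
    have hse : Real.sqrt e ≤ 1 / 10 ^ 4 := by
      rw [show (1 : ℝ) / 10 ^ 4 = Real.sqrt (1 / 10 ^ 8) by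
        rw [show (1 : ℝ) / 10 ^ 8 = (1 / 10 ^ 4) ^ 2 by norm_num]
        rw [Real.sqrt_sq (by norm_num)]]
      exact Real.sqrt_le_sqrt he
    have hsq0 : 0 < Real.sqrt q := Real.sqrt_pos.2 hq0
    have w8 : h ≤ 2 / 10 ^ 4 * Real.sqrt q := by
      rw [hh]
      apply mul_le_mul_of_nonneg_right _ (le_of_lt hsq0)
      linarith
    have w9 : 9992 / 10000 * Real.sqrt q ≤ ‖rw' (UM B * SM B C τ ^ k) x‖ := by
      norm_num at w8 ⊢
      linarith
    have w10 : (9992 / 10000 * Real.sqrt q) ^ 2 ≤ ‖rw' (UM B * SM B C τ ^ k) x‖ ^ 2 :=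
      pow_le_pow_left₀ (by positivity) w9 2
    rw [mul_pow, Real.sq_sqrt (le_of_lt hq0)] at w10
    norm_num at w10
    linarith

end Pool.Agent.Lib.MP_688fd0_co.TE.H54
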