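import Pool.Agent.Lib.MP_688fd0_co.TE.Iface1

/-!
# Theorem E: module MCD (bounded differences)
-/

namespace Pool.Agent.Lib.MP_688fd0_co.TE.H54

universe u v

section one

variable {Ω : Type*} [Fintype Ω] {μ : Ω → ℝ}

theorem Ex_nonneg (hμ : IsPr μ) {f : Ω → ℝ} (hf : ∀ ω, 0 ≤ f ω) : 0 ≤ Ex μ f :=
  Finset.sum_nonneg fun ω _ => mul_nonneg (hμ.nn ω) (hf ω)

theorem Ex_mono (hμ : IsPr μ) {f g : Ω → ℝ} (hf : ∀ ω, f ω ≤ g ω) : Ex μ f ≤ Ex μ g :=
  Finset.sum_le_sum fun ω _ => mul_le_mul_of_nonneg_left (hf ω) (hμ.nn ω)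

theorem Ex_const (hμ : IsPr μ) (c : ℝ) : Ex μ (fun _ => c) = c := by
  unfold Ex
  rw [← Finset.sum_mul, hμ.one, one_mul]

theorem Ex_mul_left (c : ℝ) (f : Ω → ℝ) : Ex μ (fun ω => c * f ω) = c * Ex μ f := by
  unfold Ex
  rw [Finset.mul_sum]
  exact Finset.sum_congr rfl fun ω _ => by ring

theorem Ex_mul_right (c : ℝ) (f : Ω → ℝ) : Ex μ (fun ω => f ω * c) = Ex μ f * c := by
  unfold Ex
  rw [Finset.sum_mul]
  exact Finset.sum_congr rfl fun ω _ => by ring

theorem Ex_add (f g : Ω → ℝ) : Ex μ (fun ω => f ω + g ω) = Ex μ f + Ex μ g := by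
  unfold Ex
  rw [← Finset.sum_add_distrib]
  exact Finset.sum_congr rfl fun ω _ => by ring

theorem Ex_sub (f g : Ω → ℝ) : Ex μ (fun ω => f ω - g ω) = Ex μ f - Ex μ g := by
  unfold Ex
  rw [← Finset.sum_sub_distrib]
  exact Finset.sum_congr rfl fun ω _ => by ring

theorem Ex_swap {Ω' : Type*} [Fintype Ω'] {μ' : Ω' → ℝ} (f : Ω → Ω' → ℝ) :
    Ex μ (fun ω => Ex μ' (fun ω' => f ω ω')) = Ex μ' (fun ω' => Ex μ (fun ω => f ω ω')) := by
  unfold Ex
  simp_rw [Finset.mul_sum]
  rw [Finset.sum_comm]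
  exact Finset.sum_congr rfl fun ω _ => Finset.sum_congr rfl fun ω' _ => by ring

/-- One coordinate: exponential moment of a variable with bounded differences. -/
theorem one_coord (hμ : IsPr μ) (Y : Ω → ℝ) (D θ : ℝ) (hD : ∀ a a', |Y a - Y a'| ≤ D) :
    Ex μ (fun a => Real.exp (θ * (Y a - Ex μ Y))) ≤ Real.exp (θ ^ 2 * D ^ 2 / 2) := by
  -- `exp(θ (Y a - E Y)) ≤ E' exp(θ (Y a - Y a'))`
  have h1 : ∀ a, Real.exp (θ * (Y a - Ex μ Y)) ≤ Ex μ (fun a' => Real.exp (θ * (Y a - Y a'))) := by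
    intro a
    have hexp : ∀ a', Real.exp (θ * (Y a - Ex μ Y)) * (1 + θ * (Ex μ Y - Y a')) ≤
        Real.exp (θ * (Y a - Y a')) := by
      intro a'
      have e1 : Real.exp (θ * (Y a - Y a')) =
          Real.exp (θ * (Y a - Ex μ Y)) * Real.exp (θ * (Ex μ Y - Y a')) := by
        rw [← Real.exp_add]; congr 1; ring
      rw [e1]
      apply mul_le_mul_of_nonneg_left _ (Real.exp_nonneg _)
      have := Real.add_one_le_exp (θ * (Ex μ Y - Y a'))
      linarith
    have h2 := Ex_mono hμ hexp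
    have h3 : Ex μ (fun a' => Real.exp (θ * (Y a - Ex μ Y)) * (1 + θ * (Ex μ Y - Y a'))) =
        Real.exp (θ * (Y a - Ex μ Y)) := by
      rw [Ex_mul_left, Ex_add, Ex_const hμ, Ex_mul_left, Ex_sub, Ex_const hμ]
      ring
    rw [h3] at h2
    exact h2
  have h4 := Ex_mono hμ h1
  refine h4.trans ?_
  -- symmetrise
  set A := Ex μ (fun a => Ex μ (fun a' => Real.exp (θ * (Y a - Y a')))) with hA
  have h5 : A = Ex μ (fun a => Ex μ (fun a' => Real.exp (-(θ * (Y a - Y a'))))) := by
    rw [hA, Ex_swap]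
    congr 1; funext a; congr 1; funext a'; congr 1; ring
  have h6 : A = Ex μ (fun a => Ex μ (fun a' => Real.cosh (θ * (Y a - Y a')))) := by
    have h7 : A + A = Ex μ (fun a => Ex μ (fun a' => 2 * Real.cosh (θ * (Y a - Y a')))) := by
      nth_rw 2 [h5]
      rw [hA, ← Ex_add]
      congr 1; funext a
      rw [← Ex_add]
      congr 1; funext a'
      rw [Real.cosh_eq]; ring
    have h8 : Ex μ (fun a => Ex μ (fun a' => 2 * Real.cosh (θ * (Y a - Y a')))) =
        2 * Ex μ (fun a => Ex μ (fun a' => Real.cosh (θ * (Y a - Y a')))) := by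
      simp_rw [Ex_mul_left]
    rw [h8] at h7
    linarith
  rw [h6]
  have h9 : ∀ a, Ex μ (fun a' => Real.cosh (θ * (Y a - Y a'))) ≤ Real.exp (θ ^ 2 * D ^ 2 / 2) := by
    intro a
    have h10 : ∀ a', Real.cosh (θ * (Y a - Y a')) ≤ Real.exp (θ ^ 2 * D ^ 2 / 2) := by
      intro a'
      refine (Real.cosh_le_exp_half_sq _).trans ?_
      apply Real.exp_le_exp.2
      have h11 : (Y a - Y a') ^ 2 ≤ D ^ 2 := sq_le_sq' (by have := abs_le.1 (hD a a'); linarith)
        (abs_le.1 (hD a a')).2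
      have h12 : (θ * (Y a - Y a')) ^ 2 ≤ θ ^ 2 * D ^ 2 := by
        rw [mul_pow]
        exact mul_le_mul_of_nonneg_left h11 (sq_nonneg _)
      linarith
    have := Ex_mono hμ h10
    rwa [Ex_const hμ] at this
  have := Ex_mono hμ h9
  rwa [Ex_const hμ] at this

end one

section many

variable {ι : Type u} [Fintype ι] [DecidableEq ι] {α : ι → Type v} [∀ i, Fintype (α i)]

omit [∀ i, Fintype (α i)] in
/-- A function which depends on no coordinate is constant. -/
theorem const_of (F : (∀ i, α i) → ℝ) (h : ∀ ω i a, F (Function.update ω i a) = F ω)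
    (ω ω' : ∀ i, α i) : F ω = F ω' := by
  have key : ∀ S : Finset ι, F (S.piecewise ω' ω) = F ω := by
    intro S
    induction S using Finset.induction_on with
    | empty => simp
    | insert i S _ ih => rw [Finset.piecewise_insert, h, ih]
  have := key Finset.univ
  rw [Finset.piecewise_univ] at this
  exact this.symm

theorem exp_moment (h1 : UPD_S.{u, v}) (hp : PIPR_S.{u, v}) {μ : ∀ i, α i → ℝ}
    (hμ : ∀ i, IsPr (μ i))
    (D : ι → ℝ) (θ : ℝ) (S : Finset ι) : ∀ F : (∀ i, α i) → ℝ,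
    (∀ i, i ∉ S → ∀ ω a, F (Function.update ω i a) = F ω) →
    (∀ ω i a, |F (Function.update ω i a) - F ω| ≤ D i) →
    Ex (piW μ) (fun ω => Real.exp (θ * (F ω - Ex (piW μ) F))) ≤
      Real.exp (θ ^ 2 * (∑ i ∈ S, D i ^ 2) / 2) := by
  have hpi : IsPr (piW μ) := hp.1 ι α μ hμ
  induction S using Finset.induction_on with
  | empty =>
    intro F hF _
    have hc : ∀ ω ω', F ω = F ω' :=
      fun ω ω' => const_of F (fun ω i a => hF i (Finset.notMem_empty i) ω a) ω ω'
    have h2 : ∀ ω, Real.exp (θ * (F ω - Ex (piW μ) F)) = 1 := by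
      intro ω
      have : Ex (piW μ) F = F ω := by
        have e : F = fun _ => F ω := funext fun ω' => hc ω' ω
        rw [e]
        exact Ex_const hpi _
      rw [this, sub_self, mul_zero, Real.exp_zero]
    simp only [h2]
    rw [Ex_const hpi]
    simp
  | insert i S hi ih =>
    intro F hF hD
    set F' : (∀ i, α i) → ℝ := fun ω => Ex (μ i) (fun a => F (Function.update ω i a)) with hF'
    have hE : Ex (piW μ) F = Ex (piW μ) F' := h1.1 ι α μ hμ F i
    have hdep : ∀ j, j ∉ S → ∀ ω a, F' (Function.update ω j a) = F' ω := by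
      intro j hj ω b
      simp only [hF']
      by_cases hji : j = i
      · subst hji
        simp only [Function.update_idem]
      · congr 1
        funext a
        rw [Function.update_comm hji]
        exact hF j (by simp [hji, hj]) _ _
    have hD' : ∀ ω j a, |F' (Function.update ω j a) - F' ω| ≤ D j := by
      intro ω j b
      simp only [hF']
      by_cases hji : j = i
      · subst hji
        simp only [Function.update_idem, sub_self, abs_zero]
        have := hD ω j (ω j)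
        rwa [Function.update_eq_self, sub_self, abs_zero] at this
      · rw [← Ex_sub]
        have h2 : ∀ a, |F (Function.update (Function.update ω j b) i a) -
            F (Function.update ω i a)| ≤ D j := by
          intro a
          rw [Function.update_comm hji]
          exact hD _ j b
        rw [abs_le]
        constructor
        · have := Ex_mono (hμ i) (fun a => (abs_le.1 (h2 a)).1)
          rwa [Ex_const (hμ i)] at this
        · have := Ex_mono (hμ i) (fun a => (abs_le.1 (h2 a)).2)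
          rwa [Ex_const (hμ i)] at this
    have h3 := ih F' hdep hD'
    rw [h1.1 ι α μ hμ (fun ω => Real.exp (θ * (F ω - Ex (piW μ) F))) i, hE]
    have h4 : ∀ ω, Ex (μ i) (fun a => Real.exp (θ * (F (Function.update ω i a) -
        Ex (piW μ) F'))) ≤ Real.exp (θ * (F' ω - Ex (piW μ) F')) *
          Real.exp (θ ^ 2 * D i ^ 2 / 2) := by
      intro ω
      have e1 : ∀ a, Real.exp (θ * (F (Function.update ω i a) - Ex (piW μ) F')) =
          Real.exp (θ * (F' ω - Ex (piW μ) F')) *
            Real.exp (θ * (F (Function.update ω i a) - F' ω)) := by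
        intro a
        rw [← Real.exp_add]; congr 1; ring
      simp only [e1]
      rw [Ex_mul_left]
      apply mul_le_mul_of_nonneg_left _ (Real.exp_nonneg _)
      apply one_coord (hμ i) (fun a => F (Function.update ω i a)) (D i) θ
      intro a a'
      have := hD (Function.update ω i a') i a
      rwa [Function.update_idem] at this
    refine (Ex_mono hpi h4).trans ?_
    rw [Ex_mul_right, Finset.sum_insert hi]
    have e2 : Real.exp (θ ^ 2 * (D i ^ 2 + ∑ x ∈ S, D x ^ 2) / 2) =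
        Real.exp (θ ^ 2 * (∑ i ∈ S, D i ^ 2) / 2) * Real.exp (θ ^ 2 * D i ^ 2 / 2) := by
      rw [← Real.exp_add]; congr 1; ring
    rw [e2]
    exact mul_le_mul_of_nonneg_right h3 (Real.exp_nonneg _)

theorem tail (h1 : UPD_S.{u, v}) (hp : PIPR_S.{u, v}) {μ : ∀ i, α i → ℝ}
    (hμ : ∀ i, IsPr (μ i)) (F : (∀ i, α i) → ℝ) (D : ι → ℝ) (V d : ℝ)
    (hD : ∀ ω i a, |F (Function.update ω i a) - F ω| ≤ D i) (hV : ∑ i, D i ^ 2 ≤ V)
    (hV0 : 0 < V) (hd : 0 < d) :
    Pr (piW μ) (fun ω => d ≤ F ω - Ex (piW μ) F) ≤ Real.exp (-(d ^ 2 / (2 * V))) := by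
  have hpi : IsPr (piW μ) := hp.1 ι α μ hμ
  set θ := d / V with hθ
  have hθ0 : 0 < θ := div_pos hd hV0
  have h2 := exp_moment h1 hp hμ D θ Finset.univ F (fun i hi => absurd (Finset.mem_univ i) hi) hD
  have h3 : Pr (piW μ) (fun ω => d ≤ F ω - Ex (piW μ) F) ≤
      Real.exp (-(θ * d)) * Ex (piW μ) (fun ω => Real.exp (θ * (F ω - Ex (piW μ) F))) := by
    rw [← Ex_mul_left]
    unfold Pr
    apply Finset.sum_le_sum
    intro ω _
    apply mul_le_mul_of_nonneg_left _ (hpi.nn ω)
    by_cases hc : d ≤ F ω - Ex (piW μ) F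
    · rw [ind_of hc]
      simp only
      rw [← Real.exp_add]
      have : 0 ≤ -(θ * d) + θ * (F ω - Ex (piW μ) F) := by
        have := mul_le_mul_of_nonneg_left hc (le_of_lt hθ0)
        linarith
      exact Real.one_le_exp this
    · rw [ind_not hc]
      simp only
      positivity
  refine h3.trans ((mul_le_mul_of_nonneg_left h2 (Real.exp_nonneg _)).trans ?_)
  rw [← Real.exp_add]
  apply Real.exp_le_exp.2
  have h4 : θ ^ 2 * (∑ i, D i ^ 2) / 2 ≤ θ ^ 2 * V / 2 := by
    have := mul_le_mul_of_nonneg_left hV (sq_nonneg θ)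
    linarith
  have h5 : θ * d = d ^ 2 / V := by rw [hθ]; ring
  have h6 : θ ^ 2 * V / 2 = d ^ 2 / (2 * V) := by
    rw [hθ]; field_simp
  have h7 : d ^ 2 / V = 2 * (d ^ 2 / (2 * V)) := by field_simp
  linarith

end many

/-- MCD. -/
theorem mcd (hp : PIPR_S.{u, v}) (h1 : UPD_S.{u, v}) : MCD_S.{u, v} := by
  intro ι _ _ α _ μ hμ F D V d hD hV hV0 hd
  have t1 := tail h1 hp hμ F D V d hD hV hV0 hd
  have t2 := tail h1 hp hμ (fun ω => -F ω) D V d (fun ω i a => by
    have := hD ω i a
    rw [← abs_neg] at this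
    have e : -F (Function.update ω i a) - -F ω = -(F (Function.update ω i a) - F ω) := by ring
    rwa [e]) hV hV0 hd
  have e1 : Ex (piW μ) (fun ω => -F ω) = -Ex (piW μ) F := by
    have := Ex_mul_left (μ := piW μ) (-1) F
    simpa using this
  rw [e1] at t2
  have hpi : IsPr (piW μ) := hp.1 ι α μ hμ
  have t3 : Pr (piW μ) (fun ω => d ≤ |F ω - Ex (piW μ) F|) ≤
      Pr (piW μ) (fun ω => d ≤ F ω - Ex (piW μ) F) +
        Pr (piW μ) (fun ω => d ≤ -F ω - -Ex (piW μ) F) := by
    unfold Pr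
    rw [← Finset.sum_add_distrib]
    apply Finset.sum_le_sum
    intro ω _
    rw [← mul_add]
    apply mul_le_mul_of_nonneg_left _ (hpi.nn ω)
    by_cases hc : d ≤ |F ω - Ex (piW μ) F|
    · rw [ind_of hc]
      rcases le_abs.1 hc with h2 | h2
      · have h3 := ind_of h2
        have h4 := ind_nonneg (d ≤ -F ω - -Ex (piW μ) F)
        linarith
      · have h3 := ind_of (show d ≤ -F ω - -Ex (piW μ) F by linarith)
        have h4 := ind_nonneg (d ≤ F ω - Ex (piW μ) F)
        linarith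
    · rw [ind_not hc]
      have h3 := ind_nonneg (d ≤ F ω - Ex (piW μ) F)
      have h4 := ind_nonneg (d ≤ -F ω - -Ex (piW μ) F)
      linarith
  linarith

end Pool.Agent.Lib.MP_688fd0_co.TE.H54
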